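import Pool.Agent.Lib.MP_7f5b60_al.NotFibered

/-!
Word length versus distance in the Cayley graph, and homomorphisms from finite-index subgroups
of `GG` to extensions of free groups by the integers.
-/

set_option autoImplicit false

namespace Pool.Agent.Lib.MP_7f5b60_al

open SimpleGraph

section cayley

variable {G H : Type} [Group G] [Group H]

theorem word_of_walk {S : Finset G} {a b : G} (p : (mulCayley (S : Set G)).Walk a b) :
    Word S p.length (a⁻¹ * b) := by
  induction p with
  | nil => simpa using Word.one S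
  | @cons u v w h p ih =>
    have h1 : Word S 1 (u⁻¹ * v) := by
      rcases ((mulCayley_adj _ u v).1 h).2 with h2 | h2
      · exact Word.of_mem h2
      · simpa using (Word.of_mem (T := S) h2).inv
    have h2 := h1.mul ih
    rw [Walk.length_cons, add_comm]
    convert h2 using 1
    group

theorem walk_of_list {S : Finset G} (l : List G) (hl : ∀ x ∈ l, x ∈ S ∨ x⁻¹ ∈ S) (a : G) :
    ∃ p : (mulCayley (S : Set G)).Walk a (a * l.prod), p.length ≤ l.length := by
  induction l generalizing a with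
  | nil => exact ⟨(Walk.nil : (mulCayley (S : Set G)).Walk a a).copy rfl (by simp), by simp⟩
  | cons x l ih =>
    obtain ⟨p, hp⟩ := ih (fun u hu => hl u (by simp [hu])) (a * x)
    by_cases hx : a = a * x
    · refine ⟨p.copy hx.symm (by simp [mul_assoc]), ?_⟩
      simp only [Walk.length_copy, List.length_cons]
      omega
    · have hadj : (mulCayley (S : Set G)).Adj a (a * x) := by
        refine (mulCayley_adj _ _ _).2 ⟨hx, ?_⟩
        simpa using hl x (by simp)
      refine ⟨(Walk.cons hadj p).copy rfl (by simp [mul_assoc]), ?_⟩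
      simp only [Walk.length_copy, Walk.length_cons, List.length_cons]
      omega

theorem walk_of_word {S : Finset G} {n : ℕ} {a b : G} (h : Word S n (a⁻¹ * b)) :
    ∃ p : (mulCayley (S : Set G)).Walk a b, p.length ≤ n := by
  obtain ⟨l, h1, h2, h3⟩ := h
  obtain ⟨p, hp⟩ := walk_of_list l h2 a
  exact ⟨p.copy rfl (by rw [h3]; group), by simpa using hp.trans h1⟩

theorem exists_word {S : Finset G} (hS : Subgroup.closure (S : Set G) = ⊤) (x : G) :
    ∃ n, Word S n x := by
  have hx : x ∈ Subgroup.closure (S : Set G) := hS ▸ Subgroup.mem_top x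
  induction hx using Subgroup.closure_induction with
  | mem x hx => exact ⟨1, Word.of_mem hx⟩
  | one => exact ⟨0, Word.one S⟩
  | mul a b _ _ iha ihb =>
    obtain ⟨m, hm⟩ := iha
    obtain ⟨n, hn⟩ := ihb
    exact ⟨_, hm.mul hn⟩
  | inv a _ iha =>
    obtain ⟨m, hm⟩ := iha
    exact ⟨_, hm.inv⟩

theorem cayley_connected {S : Finset G} (hS : Subgroup.closure (S : Set G) = ⊤) :
    (mulCayley (S : Set G)).Connected := by
  refine ⟨fun a b => ?_⟩
  obtain ⟨n, hn⟩ := exists_word hS (a⁻¹ * b)
  obtain ⟨p, -⟩ := walk_of_word hn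
  exact ⟨p⟩

theorem dist_le_of_lip {S : Finset G} {T : Finset H} (hS : Subgroup.closure (S : Set G) = ⊤)
    (f : G → H) (L : ℕ)
    (hf : ∀ a b n, Word S n (a⁻¹ * b) → Word T (L * n) ((f a)⁻¹ * f b)) (a b : G) :
    (mulCayley (T : Set H)).dist (f a) (f b) ≤ L * (mulCayley (S : Set G)).dist a b := by
  obtain ⟨p, hp⟩ := (cayley_connected hS).exists_walk_length_eq_dist a b
  obtain ⟨q, hq⟩ := walk_of_word (hf a b _ (word_of_walk p))
  rw [← hp]
  exact (dist_le q).trans hq

end cayley

theorem indep_e_c {n : ℕ} (hn0 : n ≠ 0) {i j : ℤ}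
    (he' : (gy ^ n * gz ^ n * (gy ^ n)⁻¹ * (gz ^ n)⁻¹) ^ i = (gc ^ n) ^ j) : i = 0 ∧ j = 0 := by
  set u : F3 := (FreeGroup.of 0 : F3) ^ n * FreeGroup.of 1 ^ n * ((FreeGroup.of 0 : F3) ^ n)⁻¹ *
      (FreeGroup.of 1 ^ n)⁻¹ with hu
  have hiota : iota (u ^ i) = gc ^ ((n : ℤ) * j) := by
    rw [zpow_mul, zpow_natCast, ← he', hu]
    simp [iota]
  have hproj : proj (u ^ i) = u ^ i := by
    rw [hu]; simp [proj]
  have h1 := ff_left (u ^ i) 1
  rw [hiota, ff_c_zpow, left_mul_hc_zpow, hproj] at h1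
  have h2 : u ^ i = 1 := by simpa using h1
  have hi : i = 0 := by
    by_contra hi
    exact not_commute_pow hn0 ((IsMulTorsionFree.zpow_eq_one_iff_left hi).1 h2)
  refine ⟨hi, ?_⟩
  rw [h2, map_one] at hiota
  have h3 := ff_c_zpow ((n : ℤ) * j) 1
  rw [← hiota, one_mul, ff_one, one_mul, hc, ← map_zpow] at h3
  have h4 := congrArg (fun x : HH => x.right.toAdd) h3
  simp only [SemidirectProduct.one_right, SemidirectProduct.right_inr, toAdd_one, toAdd_zpow,
    toAdd_ofAdd, smul_eq_mul, mul_one] at h4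
  rcases mul_eq_zero.1 h4.symm with h4 | h4
  · exact absurd (by exact_mod_cast h4) hn0
  · exact h4

theorem GG_infinite_ker (K : Subgroup GG) [K.FiniteIndex] (F : Type) [Group F] [IsFreeGroup F]
    (φ : Multiplicative ℤ →* MulAut F) (π : K →* SemidirectProduct F (Multiplicative ℤ) φ) :
    Infinite π.ker := by
  by_contra hinf
  have hfin : Finite π.ker := not_infinite_iff_finite.1 hinf
  obtain ⟨n, hn0, hn, hc1⟩ := psi_c_eq_one relG K (SemidirectProduct.rightHom.comp π)
  let yK : K := ⟨gy ^ n, hn gy⟩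
  let zK : K := ⟨gz ^ n, hn gz⟩
  let e : K := yK * zK * yK⁻¹ * zK⁻¹
  let d : K := ⟨gc ^ n, hn gc⟩
  have hcy : Commute gc gy := relG.cy
  have hcz : Commute gc gz := relG.cz
  have hcomm : Commute e d := by
    apply Subtype.ext
    have h1 : Commute (gc ^ n) (gy ^ n) := hcy.pow_pow n n
    have h2 : Commute (gc ^ n) (gz ^ n) := hcz.pow_pow n n
    exact (((h1.mul_right h2).mul_right h1.inv_right).mul_right h2.inv_right).symm.eq
  have he : SemidirectProduct.rightHom (π e) = 1 := by
    simp only [e, map_mul, map_inv]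
    rw [mul_assoc, mul_assoc, mul_inv_cancel_comm_assoc] <;> simp
  have hd : SemidirectProduct.rightHom (π d) = 1 := hc1
  have hE : π e = SemidirectProduct.inl (π e).left := by
    ext
    · simp
    · simpa using he
  have hD : π d = SemidirectProduct.inl (π d).left := by
    ext
    · simp
    · simpa using hd
  have hcomm' : Commute (π e).left (π d).left := by
    apply SemidirectProduct.inl_injective (φ := φ)
    rw [map_mul SemidirectProduct.inl, map_mul SemidirectProduct.inl, ← hE, ← hD]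
    exact (hcomm.map π).eq
  obtain ⟨i, j, hij, hED⟩ := free_commute hcomm'
  have hx : e ^ i * (d ^ j)⁻¹ ∈ π.ker := by
    rw [MonoidHom.mem_ker, map_mul π, map_inv π, map_zpow π, map_zpow π, hE, hD,
      ← map_zpow SemidirectProduct.inl, ← map_zpow SemidirectProduct.inl, hED, mul_inv_cancel]
  obtain ⟨m, hm, hxm⟩ := isOfFinOrder_iff_pow_eq_one.1
    (isOfFinOrder_of_finite (⟨_, hx⟩ : π.ker))
  have h1 : (e ^ i * (d ^ j)⁻¹) ^ m = 1 := by simpa using congrArg Subtype.val hxm
  rw [((hcomm.zpow_zpow i j).inv_right).mul_pow, inv_pow, mul_inv_eq_one, ← zpow_natCast,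
    ← zpow_natCast, ← zpow_mul, ← zpow_mul] at h1
  have h2 : (gy ^ n * gz ^ n * (gy ^ n)⁻¹ * (gz ^ n)⁻¹) ^ (i * m) = (gc ^ n) ^ (j * m) := by
    simpa [e, d, yK, zK] using congrArg (fun x : K => (x : GG)) h1
  obtain ⟨h3, h4⟩ := indep_e_c hn0 h2
  have hm' : (m : ℤ) ≠ 0 := by exact_mod_cast hm.ne'
  rcases hij with h | h
  · exact h ((mul_eq_zero.1 h3).resolve_right hm')
  · exact h ((mul_eq_zero.1 h4).resolve_right hm')

end Pool.Agent.Lib.MP_7f5b60_al
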