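import Pool.Agent.Lib.MP_7f5b60_al.Twist

/-!
The two groups: `GG` (parameter `q = 2`, given by a presentation) and `HH` (parameter `q = 1`,
the semidirect product of the free group of rank three with the integers), and a bijection
between them which is Lipschitz in both directions.
-/

set_option autoImplicit false

namespace Pool.Agent.Lib.MP_7f5b60_al

open MulOpposite

/-! ### The group `GG` -/

/-- Relators on the generators `0 = y`, `1 = z`, `2 = c`, `3 = s`. -/
def rels : Set (FreeGroup (Fin 4)) :=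
  {FreeGroup.of 2 * FreeGroup.of 0 * (FreeGroup.of 0 * FreeGroup.of 2)⁻¹,
   FreeGroup.of 2 * FreeGroup.of 1 * (FreeGroup.of 1 * FreeGroup.of 2)⁻¹,
   FreeGroup.of 2 * FreeGroup.of 3 * (FreeGroup.of 3 * (FreeGroup.of 0 * FreeGroup.of 1 *
     (FreeGroup.of 0)⁻¹ * (FreeGroup.of 1)⁻¹ * FreeGroup.of 2 ^ (2 : ℤ)))⁻¹}

/-- The group `⟨y, z, c, s | [c, y], [c, z], s⁻¹ c s = [y, z] c ^ 2⟩`. -/
abbrev GG : Type := PresentedGroup rels

def gy : GG := PresentedGroup.of 0
def gz : GG := PresentedGroup.of 1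
def gc : GG := PresentedGroup.of 2
def gs : GG := PresentedGroup.of 3

theorem relG : Rel 2 gy gz gc gs := by
  refine ⟨?_, ?_, ?_⟩
  · have := PresentedGroup.mk_eq_mk_of_mul_inv_mem (rels := rels)
      (x := FreeGroup.of 2 * FreeGroup.of 0) (y := FreeGroup.of 0 * FreeGroup.of 2)
      (by simp [rels])
    simp only [map_mul] at this
    exact this
  · have := PresentedGroup.mk_eq_mk_of_mul_inv_mem (rels := rels)
      (x := FreeGroup.of 2 * FreeGroup.of 1) (y := FreeGroup.of 1 * FreeGroup.of 2)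
      (by simp [rels])
    simp only [map_mul] at this
    exact this
  · have := PresentedGroup.mk_eq_mk_of_mul_inv_mem (rels := rels)
      (x := FreeGroup.of 2 * FreeGroup.of 3) (y := FreeGroup.of 3 * (FreeGroup.of 0 *
        FreeGroup.of 1 * (FreeGroup.of 0)⁻¹ * (FreeGroup.of 1)⁻¹ * FreeGroup.of 2 ^ (2 : ℤ)))
      (by simp only [rels, Set.mem_insert_iff, Set.mem_singleton_iff, or_true])
    simp only [map_mul, map_inv, map_zpow] at this
    exact this

theorem exists_liftG {P : Type} [Group P] {y z c s : P} (R : Rel 2 y z c s) :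
    ∃ A : GG →* P, A gy = y ∧ A gz = z ∧ A gc = c ∧ A gs = s := by
  refine ⟨PresentedGroup.toGroup (f := ![y, z, c, s]) ?_, ?_, ?_, ?_, ?_⟩
  · intro r hr
    simp only [rels, Set.mem_insert_iff, Set.mem_singleton_iff] at hr
    rcases hr with rfl | rfl | rfl
    · simp only [map_mul, map_inv, FreeGroup.lift_apply_of]
      exact mul_inv_eq_one.2 R.cy
    · simp only [map_mul, map_inv, FreeGroup.lift_apply_of]
      exact mul_inv_eq_one.2 R.cz
    · simp only [map_mul, map_inv, map_zpow, FreeGroup.lift_apply_of]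
      exact mul_inv_eq_one.2 R.cs
  all_goals exact PresentedGroup.toGroup.of _

open Classical in
/-- The generating set of `GG`. -/
noncomputable def SG : Finset GG := {gy, gz, gc, gs}

theorem closure_SG : Subgroup.closure (SG : Set GG) = ⊤ := by
  rw [eq_top_iff, ← PresentedGroup.closure_range_of rels]
  apply Subgroup.closure_mono
  rintro _ ⟨i, rfl⟩
  fin_cases i <;> simp [SG, gy, gz, gc, gs]

/-! ### The group `HH` -/

/-- The free group on `0 = y`, `1 = z`, `2 = s`. -/
abbrev F3 : Type := FreeGroup (Fin 3)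

def fw : F3 := FreeGroup.of 0 * FreeGroup.of 1 * (FreeGroup.of 0)⁻¹ * (FreeGroup.of 1)⁻¹

/-- The automorphism `y ↦ y`, `z ↦ z`, `s ↦ s [y, z]`. -/
def alpha : MulAut F3 :=
  MonoidHom.toMulEquiv
    (FreeGroup.lift ![FreeGroup.of 0, FreeGroup.of 1, FreeGroup.of 2 * fw])
    (FreeGroup.lift ![FreeGroup.of 0, FreeGroup.of 1, FreeGroup.of 2 * fw⁻¹])
    (by ext i; fin_cases i <;> simp [fw, mul_assoc])
    (by ext i; fin_cases i <;> simp [fw, mul_assoc])

theorem alpha_0 : alpha (FreeGroup.of 0) = FreeGroup.of 0 := by simp [alpha]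
theorem alpha_1 : alpha (FreeGroup.of 1) = FreeGroup.of 1 := by simp [alpha]
theorem alpha_2 : alpha (FreeGroup.of 2) = FreeGroup.of 2 * fw := by simp [alpha]

def act : Multiplicative ℤ →* MulAut F3 := zpowersHom _ alpha

theorem act_fix {x : F3} (hx : alpha x = x) (k : Multiplicative ℤ) : act k x = x := by
  have : alpha ∈ MulAction.stabilizer (MulAut F3) x := hx
  exact (MulAction.stabilizer (MulAut F3) x).zpow_mem this k.toAdd

/-- The free-by-cyclic group. -/
abbrev HH : Type := SemidirectProduct F3 (Multiplicative ℤ) act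

def hy : HH := SemidirectProduct.inl (FreeGroup.of 0)
def hz : HH := SemidirectProduct.inl (FreeGroup.of 1)
def hs : HH := SemidirectProduct.inl (FreeGroup.of 2)
def hc : HH := SemidirectProduct.inr (Multiplicative.ofAdd 1)

theorem act_one (x : F3) : act (Multiplicative.ofAdd 1) x = alpha x := by simp [act]

theorem relH : Rel 1 hy hz hc hs := by
  refine ⟨?_, ?_, ?_⟩
  · ext <;> simp [hy, hc, act_one, alpha_0]
  · ext <;> simp [hz, hc, act_one, alpha_1]
  · have : hy * hz * hy⁻¹ * hz⁻¹ = SemidirectProduct.inl fw := by simp [hy, hz, fw]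
    rw [this, zpow_one]
    ext <;> simp [hs, hc, act_one, alpha_2]

theorem exists_liftH {P : Type} [Group P] {y z c s : P} (R : Rel 1 y z c s) :
    ∃ A : HH →* P, A hy = y ∧ A hz = z ∧ A hc = c ∧ A hs = s := by
  let fn : F3 →* P := FreeGroup.lift ![y, z, s]
  let fg : Multiplicative ℤ →* P := zpowersHom _ c
  have h1 : ∀ x, fn (alpha x) = c * fn x * c⁻¹ := by
    intro x
    have : fn.comp alpha.toMonoidHom = (MulAut.conj c).toMonoidHom.comp fn := by
      ext i
      fin_cases i
      · simp [fn, alpha_0, R.cy]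
      · simp [fn, alpha_1, R.cz]
      · simp [fn, alpha_2, R.cs, fw, mul_assoc]
    exact DFunLike.congr_fun this x
  have h2 : ∀ (k : ℤ) x, fn ((alpha ^ k) x) = c ^ k * fn x * (c ^ k)⁻¹ := by
    intro k
    induction k using Int.induction_on with
    | zero => simp
    | succ k ih =>
      intro x
      rw [zpow_add_one, MulAut.mul_apply, ih, h1, zpow_add_one]
      group
    | pred k ih =>
      intro x
      have := h1 (alpha⁻¹ x)
      rw [MulAut.apply_inv_self] at this
      rw [zpow_sub_one, MulAut.mul_apply, ih, this, zpow_sub_one]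
      group
  refine ⟨SemidirectProduct.lift fn fg ?_, ?_, ?_, ?_, ?_⟩
  · intro k
    ext1 i
    exact h2 k.toAdd (FreeGroup.of i)
  · simp [hy, fn]
  · simp [hz, fn]
  · simp [hc, fg]
  · simp [hs, fn]

open Classical in
/-- The generating set of `HH`. -/
noncomputable def SH : Finset HH := {hy, hz, hc, hs}

theorem closure_SH : Subgroup.closure (SH : Set HH) = ⊤ := by
  rw [eq_top_iff]
  intro x _
  rw [← SemidirectProduct.inl_left_mul_inr_right x]
  apply Subgroup.mul_mem
  · have : ∀ u : F3, (SemidirectProduct.inl u : HH) ∈ Subgroup.closure (SH : Set HH) := by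
      intro u
      induction u using FreeGroup.induction_on with
      | C1 => simp
      | of i =>
        apply Subgroup.subset_closure
        fin_cases i <;> simp [SH, hy, hz, hs]
      | inv_of i ih => rw [map_inv]; exact Subgroup.inv_mem _ ih
      | mul a b iha ihb => rw [map_mul]; exact Subgroup.mul_mem _ iha ihb
    exact this _
  · have : (SemidirectProduct.inr x.right : HH) = hc ^ x.right.toAdd := by
      rw [hc, ← map_zpow, ← ofAdd_zsmul]; simp
    rw [this]
    exact Subgroup.zpow_mem _ (Subgroup.subset_closure (by simp [SH])) _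

theorem HH_free_by_cyclic : ∃ φ : HH →* Multiplicative ℤ, Function.Surjective φ ∧
    IsFreeGroup ↥φ.ker ∧ Group.FG ↥φ.ker := by
  refine ⟨SemidirectProduct.rightHom, SemidirectProduct.rightHom_surjective, ?_, ?_⟩
  · rw [← SemidirectProduct.range_inl_eq_ker_rightHom]
    exact IsFreeGroup.ofMulEquiv (MonoidHom.ofInjective SemidirectProduct.inl_injective)
  · rw [← SemidirectProduct.range_inl_eq_ker_rightHom]
    infer_instance

/-! ### The cocycle -/

def mY : Matrix.SpecialLinearGroup (Fin 2) ℤ := ⟨!![-3, -1; 1, 0], by simp [Matrix.det_fin_two]⟩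
def mZ : Matrix.SpecialLinearGroup (Fin 2) ℤ := ⟨!![2, 1; 1, 1], by simp [Matrix.det_fin_two]⟩

def rho : F3 →* Matrix.SpecialLinearGroup (Fin 2) ℤ := FreeGroup.lift ![mY, mZ, 1]

def v1 (h : HH) : ℤ := (rho h.left).1 0 0
def v2 (h : HH) : ℤ := (rho h.left).1 0 1

theorem v_ne (h : HH) : v1 h ≠ 0 ∨ v2 h ≠ 0 := by
  by_contra hcon
  push Not at hcon
  have := (rho h.left).2
  rw [Matrix.det_fin_two] at this
  simp only [v1, v2] at hcon
  rw [hcon.1, hcon.2] at this
  simp at this

theorem left_mul_hy (h : HH) : (h * hy).left = h.left * FreeGroup.of 0 := by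
  simp [hy, act_fix alpha_0]
theorem left_mul_hz (h : HH) : (h * hz).left = h.left * FreeGroup.of 1 := by
  simp [hz, act_fix alpha_1]
theorem left_mul_hc (h : HH) : (h * hc).left = h.left := by
  simp [hc]

theorem rho_0 : rho (FreeGroup.of 0) = mY := by simp [rho]
theorem rho_1 : rho (FreeGroup.of 1) = mZ := by simp [rho]

theorem v1_y (h : HH) : v1 (h * hy) = -3 * v1 h + v2 h := by
  simp only [v1, v2, left_mul_hy, map_mul, rho_0]
  simp [mY, Matrix.mul_apply, Fin.sum_univ_two]; ring
theorem v2_y (h : HH) : v2 (h * hy) = - v1 h := by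
  simp only [v1, v2, left_mul_hy, map_mul, rho_0]
  simp [mY, Matrix.mul_apply, Fin.sum_univ_two]
theorem v1_z (h : HH) : v1 (h * hz) = 2 * v1 h + v2 h := by
  simp only [v1, v2, left_mul_hz, map_mul, rho_1]
  simp [mZ, Matrix.mul_apply, Fin.sum_univ_two]; ring
theorem v2_z (h : HH) : v2 (h * hz) = v1 h + v2 h := by
  simp only [v1, v2, left_mul_hz, map_mul, rho_1]
  simp [mZ, Matrix.mul_apply, Fin.sum_univ_two]
theorem v1_c (h : HH) : v1 (h * hc) = v1 h := by simp only [v1, left_mul_hc]
theorem v2_c (h : HH) : v2 (h * hc) = v2 h := by simp only [v2, left_mul_hc]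

/-- Side of the line on which a nonzero vector lies. -/
def sg (a b : ℤ) : ℤ := if 0 < a ∨ (a = 0 ∧ 0 < b) then 1 else 0

def cross (a b a' b' : ℤ) : ℤ := if sg a b = sg a' b' then 0 else 1

def ty (h : HH) : ℤ := cross (v1 h) (v2 h) (-3 * v1 h + v2 h) (- v1 h)
def tz (h : HH) : ℤ := cross (v1 h) (v2 h) (2 * v1 h + v2 h) (v1 h + v2 h)

theorem ty_c (h : HH) : ty (h * hc) = ty h := by simp only [ty, v1_c, v2_c]
theorem tz_c (h : HH) : tz (h * hc) = tz h := by simp only [tz, v1_c, v2_c]

theorem ty_bd (h : HH) : 0 ≤ ty h ∧ ty h ≤ 1 := by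
  simp only [ty, cross]; split_ifs <;> omega
theorem tz_bd (h : HH) : 0 ≤ tz h ∧ tz h ≤ 1 := by
  simp only [tz, cross]; split_ifs <;> omega

theorem t_sum (h : HH) :
    ty h + tz (h * hy) - ty (h * hy * hz * hy⁻¹) - tz (h * hy * hz * hy⁻¹ * hz⁻¹) = -1 := by
  have a1 := v1_y (h * hy * hz * hy⁻¹)
  have a2 := v2_y (h * hy * hz * hy⁻¹)
  have a3 := v1_z (h * hy * hz * hy⁻¹ * hz⁻¹)
  have a4 := v2_z (h * hy * hz * hy⁻¹ * hz⁻¹)
  rw [inv_mul_cancel_right] at a1 a2 a3 a4
  rw [v1_z, v1_y, v2_y] at a1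
  rw [v2_z, v1_y, v2_y] at a2
  have hne := v_ne h
  simp only [ty, tz, v1_y, v2_y]
  generalize v1 (h * hy * hz * hy⁻¹ * hz⁻¹) = p4 at *
  generalize v2 (h * hy * hz * hy⁻¹ * hz⁻¹) = q4 at *
  generalize v1 (h * hy * hz * hy⁻¹) = p3 at *
  generalize v2 (h * hy * hz * hy⁻¹) = q3 at *
  generalize v1 h = p at *
  generalize v2 h = q at *
  have e3 : p3 = 4 * p - q := by omega
  have e3' : q3 = 5 * p - q := by omega
  have e4 : p4 = - p := by omega
  have e4' : q4 = 6 * p - q := by omega
  subst e3 e3' e4 e4'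
  simp only [cross, sg]
  split_ifs <;> omega

end Pool.Agent.Lib.MP_7f5b60_al
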