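import Pool.Agent.Lib.MP_7f5b60_al.QI

/-!
No finite-index subgroup of `GG` maps to the integers with free kernel.
-/

set_option autoImplicit false

namespace Pool.Agent.Lib.MP_7f5b60_al

theorem transfer_normal {A M : Type} [Group A] [CommGroup M] (H : Subgroup A) [hH : H.Normal]
    [H.FiniteIndex] [Fintype (A ⧸ H)] (ϕ : H →* M) (g : A) (hg : g ∈ H) :
    ∃ r : A ⧸ H → A, MonoidHom.transfer ϕ g =
      ∏ q : A ⧸ H, ϕ ⟨(r q)⁻¹ * g * r q, hH.conj_mem' g hg (r q)⟩ := by
  let T : H.LeftTransversal := default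
  refine ⟨fun q => T.2.leftQuotientEquiv q, ?_⟩
  rw [MonoidHom.transfer_def ϕ T, Subgroup.leftTransversals.diff]
  dsimp only
  refine Finset.prod_congr (by ext; simp) ?_
  intro q _
  congr 2
  have hq : g⁻¹ • q = q := by
    induction q using QuotientGroup.induction_on with
    | H a =>
      change ((g⁻¹ * a : A) : A ⧸ H) = (a : A ⧸ H)
      rw [QuotientGroup.eq]
      have := hH.conj_mem' g hg a
      simpa [mul_assoc] using this
  rw [Subgroup.smul_apply_eq_smul_apply_inv_smul, hq, smul_eq_mul, mul_assoc]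

theorem psi_c_eq_one {Γ : Type} [Group Γ] {y z c s : Γ} (R : Rel 2 y z c s) (K : Subgroup Γ)
    [K.FiniteIndex] (ψ : K →* Multiplicative ℤ) :
    ∃ n : ℕ, n ≠ 0 ∧ ∃ hn : ∀ x : Γ, x ^ n ∈ K, ψ ⟨c ^ n, hn c⟩ = 1 := by
  classical
  set N := K.normalCore with hN
  have hNK : N ≤ K := K.normalCore_le
  set n := N.index with hn
  have hn0 : n ≠ 0 := Subgroup.FiniteIndex.index_ne_zero
  have hpowN : ∀ x : Γ, x ^ n ∈ N := fun x => N.pow_index_mem x
  have hpow : ∀ x : Γ, x ^ n ∈ K := fun x => hNK (hpowN x)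
  refine ⟨n, hn0, hpow, ?_⟩
  let ρ : Γ → ℤ := fun x => (ψ ⟨x ^ n, hpow x⟩).toAdd
  have ρ_mul : ∀ a b : Γ, Commute a b → ρ (a * b) = ρ a + ρ b := by
    intro a b hab
    simp only [ρ]
    rw [← toAdd_mul, ← map_mul]
    congr 2
    exact Subtype.ext (hab.mul_pow n)
  have ρ_conj : ∀ m ∈ K, ∀ a : Γ, ρ (m * a * m⁻¹) = ρ a := by
    intro m hm a
    simp only [ρ]
    have : (⟨(m * a * m⁻¹) ^ n, hpow _⟩ : K) = ⟨m, hm⟩ * ⟨a ^ n, hpow a⟩ * ⟨m, hm⟩⁻¹ :=
      Subtype.ext (by simp [conj_pow])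
    rw [this, map_mul ψ, map_mul ψ, map_inv ψ, mul_inv_cancel_comm]
  let t : Γ → ℤ := fun g => ρ (g * c * g⁻¹)
  have t_left : ∀ m ∈ K, ∀ g, t (m * g) = t g := by
    intro m hm g
    simp only [t]
    rw [← ρ_conj m hm (g * c * g⁻¹)]
    congr 1; group
  have t_right : ∀ a : Γ, a * c = c * a → ∀ g, t (g * a) = t g := by
    intro a ha g
    simp only [t]
    congr 1
    rw [mul_assoc g a c, ha]; group
  set w := y * z * y⁻¹ * z⁻¹ with hw
  have hcy : Commute c y := R.cy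
  have hcz : Commute c z := R.cz
  have hcw : Commute c w :=
    ((hcy.mul_right hcz).mul_right hcy.inv_right).mul_right hcz.inv_right
  have t_s : ∀ g, t (g * s⁻¹) = ρ (g * w * g⁻¹) + 2 * t g := by
    intro g
    simp only [t]
    have e : g * s⁻¹ * c * (g * s⁻¹)⁻¹ = (g * w * g⁻¹) * ((g * c * g⁻¹) * (g * c * g⁻¹)) := by
      have := R.cs
      calc g * s⁻¹ * c * (g * s⁻¹)⁻¹ = g * s⁻¹ * (c * s) * g⁻¹ := by group
        _ = _ := by rw [this, ← hw, zpow_two]; group
    have hc2 : Commute (g * w * g⁻¹) (g * c * g⁻¹) := by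
      have := hcw.symm.eq
      change g * w * g⁻¹ * (g * c * g⁻¹) = g * c * g⁻¹ * (g * w * g⁻¹)
      calc g * w * g⁻¹ * (g * c * g⁻¹) = g * (w * c) * g⁻¹ := by group
        _ = _ := by rw [this]; group
    rw [e, ρ_mul _ _ (hc2.mul_right hc2), ρ_mul _ _ (Commute.refl _)]
    ring
  -- a maximum of `|t|`
  obtain ⟨g0, hg0⟩ : ∃ g0, ∀ g, |t g| ≤ |t g0| := by
    obtain ⟨q0, hq0⟩ := Finite.exists_max (fun q : Γ ⧸ K => |t q.out⁻¹|)
    refine ⟨q0.out⁻¹, fun g => ?_⟩
    have h1 := hq0 ((g⁻¹ : Γ) : Γ ⧸ K)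
    obtain ⟨k, hk⟩ := QuotientGroup.mk_out_eq_mul K g⁻¹
    rw [hk, mul_inv_rev, inv_inv, t_left _ (K.inv_mem k.2)] at h1
    exact h1
  -- the transfer to the centralizer of `c`
  let A : Subgroup Γ := Subgroup.centralizer {c}
  have memA : ∀ x : Γ, x ∈ A ↔ x * c = c * x := fun x => Subgroup.mem_centralizer_singleton_iff
  let N0 : Subgroup A := N.subgroupOf A
  let : Fintype (A ⧸ N0) := N0.fintypeQuotientOfFiniteIndex
  let φ0 : N0 →* Multiplicative ℤ :=
    { toFun := fun b => ψ ⟨g0 * (b.1 : Γ) * g0⁻¹,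
        hNK (K.normalCore_normal.conj_mem _ b.2 g0)⟩
      map_one' := by
        rw [← map_one ψ]; congr 1; exact Subtype.ext (by simp)
      map_mul' := by
        intro a b
        rw [← map_mul ψ]; congr 1; exact Subtype.ext (by simp) }
  let yA : A := ⟨y, (memA y).2 hcy.symm.eq⟩
  let zA : A := ⟨z, (memA z).2 hcz.symm.eq⟩
  let wA : A := yA * zA * yA⁻¹ * zA⁻¹
  have hwA : (wA : Γ) = w := rfl
  have hwn : wA ^ n ∈ N0 := by
    change ((wA ^ n : A) : Γ) ∈ N
    exact hpowN _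
  obtain ⟨r, hr⟩ := transfer_normal N0 φ0 (wA ^ n) hwn
  have hV : MonoidHom.transfer φ0 (wA ^ n) = 1 := by
    rw [map_pow]
    have : MonoidHom.transfer φ0 wA = 1 := by
      simp only [wA, map_mul, map_inv]
      rw [mul_assoc, mul_assoc, mul_inv_cancel_comm_assoc] <;> simp
    rw [this, one_pow]
  have hsum : ∑ q : A ⧸ N0, ρ (g0 * ((r q : Γ))⁻¹ * w * (g0 * ((r q : Γ))⁻¹)⁻¹) = 0 := by
    have := congrArg Multiplicative.toAdd (hr.symm.trans hV)
    rw [toAdd_prod, toAdd_one] at this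
    rw [← this]
    refine Finset.sum_congr rfl ?_
    intro q _
    simp only [ρ, φ0, MonoidHom.coe_mk, OneHom.coe_mk]
    congr 2
    apply Subtype.ext
    simp only [Subgroup.coe_mul, Subgroup.coe_inv, Subgroup.coe_pow, hwA, conj_pow]
    group
  have hsum2 : ∑ q : A ⧸ N0, t (g0 * ((r q : Γ))⁻¹ * s⁻¹)
      = (Fintype.card (A ⧸ N0) : ℤ) * (2 * t g0) := by
    have : ∀ q : A ⧸ N0, t (g0 * ((r q : Γ))⁻¹ * s⁻¹)
        = ρ (g0 * ((r q : Γ))⁻¹ * w * (g0 * ((r q : Γ))⁻¹)⁻¹) + 2 * t g0 := by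
      intro q
      rw [t_s, t_right _ ((memA _).1 (A.inv_mem (r q).2))]
    simp only [this, Finset.sum_add_distrib, hsum]
    simp
  have hle : |∑ q : A ⧸ N0, t (g0 * ((r q : Γ))⁻¹ * s⁻¹)|
      ≤ (Fintype.card (A ⧸ N0) : ℤ) * |t g0| := by
    refine (Finset.abs_sum_le_sum_abs _ _).trans ?_
    refine (Finset.sum_le_sum (fun q _ => hg0 _)).trans ?_
    simp
  have hcard : (0 : ℤ) < Fintype.card (A ⧸ N0) := by exact_mod_cast Fintype.card_pos
  rw [hsum2, abs_mul, abs_mul, abs_of_pos hcard, abs_two] at hle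
  have h0 : |t g0| ≤ 0 := by nlinarith [abs_nonneg (t g0)]
  have h1 : t 1 = 0 := by
    have := (hg0 1).trans h0
    exact abs_nonpos_iff.1 this
  simp only [t, ρ, one_mul, inv_one, mul_one] at h1
  exact Multiplicative.toAdd.injective (by simpa using h1)

theorem free_commute {J : Type} [Group J] [IsFreeGroup J] {a b : J} (hab : Commute a b) :
    ∃ i j : ℤ, (i ≠ 0 ∨ j ≠ 0) ∧ a ^ i = b ^ j := by
  classical
  let J' : Subgroup J := Subgroup.closure {a, b}
  have hcomm : ∀ u v : J', u * v = v * u := by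
    have := Subgroup.isMulCommutative_closure (k := ({a, b} : Set J)) (by
      intro x hx y hy
      simp only [Set.mem_insert_iff, Set.mem_singleton_iff] at hx hy
      rcases hx with rfl | rfl <;> rcases hy with rfl | rfl
      · rfl
      · exact hab.eq
      · exact hab.eq.symm
      · rfl)
    exact fun u v => this.is_comm.comm u v
  have hsub : Subsingleton (IsFreeGroup.Generators J') := by
    refine ⟨fun u v => ?_⟩
    by_contra huv
    let F : J' →* Equiv.Perm (Fin 3) :=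
      IsFreeGroup.lift fun x => if x = u then Equiv.swap 0 1 else Equiv.swap 1 2
    have h := congrArg F (hcomm (IsFreeGroup.of u) (IsFreeGroup.of v))
    simp only [map_mul, F, IsFreeGroup.lift_of, if_true, if_neg (Ne.symm huv)] at h
    revert h
    decide
  have hcyc : IsCyclic J' := by
    have : IsCyclic (FreeGroup (IsFreeGroup.Generators J')) := by
      rcases isEmpty_or_nonempty (IsFreeGroup.Generators J') with h | h
      · infer_instance
      · let := uniqueOfSubsingleton h.some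
        infer_instance
    exact isCyclic_of_surjective (IsFreeGroup.mulEquiv J') (IsFreeGroup.mulEquiv J').surjective
  obtain ⟨g, hg⟩ := hcyc.exists_generator
  obtain ⟨i, hi⟩ := hg ⟨a, Subgroup.subset_closure (by simp)⟩
  obtain ⟨j, hj⟩ := hg ⟨b, Subgroup.subset_closure (by simp)⟩
  have hi' : (g : J) ^ i = a := by simpa using congrArg Subtype.val hi
  have hj' : (g : J) ^ j = b := by simpa using congrArg Subtype.val hj
  by_cases h0 : i = 0 ∧ j = 0
  · refine ⟨1, 1, by simp, ?_⟩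
    rw [← hi', ← hj', h0.1, h0.2]
  · refine ⟨j, i, by tauto, ?_⟩
    rw [← hi', ← hj', ← zpow_mul, ← zpow_mul, mul_comm]

def iota : F3 →* GG := FreeGroup.lift ![gy, gz, 1]
def proj : F3 →* F3 := FreeGroup.lift ![FreeGroup.of 0, FreeGroup.of 1, 1]

theorem left_mul_hc_zpow (h : HH) (k : ℤ) : (h * hc ^ k).left = h.left := by
  rw [hc, ← map_zpow, SemidirectProduct.mul_left, SemidirectProduct.left_inr, map_one, mul_one]

theorem ff_left (u : F3) (g : GG) : (ff (g * iota u)).left = (ff g).left * proj u := by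
  induction u using FreeGroup.induction_on generalizing g with
  | C1 => simp
  | of i =>
    fin_cases i
    · simp only [iota, proj, FreeGroup.lift_apply_of]
      exact (congrArg _ (ff_y g)).trans (by rw [left_mul_hc_zpow, left_mul_hy]; rfl)
    · simp only [iota, proj, FreeGroup.lift_apply_of]
      exact (congrArg _ (ff_z g)).trans (by rw [left_mul_hc_zpow, left_mul_hz]; rfl)
    · simp [iota, proj]
  | inv_of i ih =>
    have := ih (g * (iota (FreeGroup.of i))⁻¹)
    rw [inv_mul_cancel_right] at this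
    rw [map_inv, map_inv, this, mul_inv_cancel_right]
  | mul a b iha ihb => rw [map_mul, map_mul, ← mul_assoc, ihb, iha, mul_assoc]

theorem not_commute_pow {n : ℕ} (hn : n ≠ 0) :
    (FreeGroup.of 0 : F3) ^ n * FreeGroup.of 1 ^ n * ((FreeGroup.of 0 : F3) ^ n)⁻¹ *
      (FreeGroup.of 1 ^ n)⁻¹ ≠ 1 := by
  intro h
  let P : Equiv.Perm ℚ := Equiv.mulLeft₀ 2 two_ne_zero
  let Q : Equiv.Perm ℚ := Equiv.addLeft 1
  have hP : ∀ (m : ℕ) (x : ℚ), (P ^ m) x = 2 ^ m * x := by
    intro m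
    induction m with
    | zero => simp
    | succ m ih => intro x; rw [pow_succ, Equiv.Perm.mul_apply, ih]; simp [P]; ring
  have hQ : ∀ (m : ℕ) (x : ℚ), (Q ^ m) x = m + x := by
    intro m
    induction m with
    | zero => simp
    | succ m ih => intro x; rw [pow_succ, Equiv.Perm.mul_apply, ih]; simp [Q]; ring
  let F : F3 →* Equiv.Perm ℚ := FreeGroup.lift ![P, Q, 1]
  have h' : (FreeGroup.of 0 : F3) ^ n * FreeGroup.of 1 ^ n
      = FreeGroup.of 1 ^ n * FreeGroup.of 0 ^ n := by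
    rw [mul_inv_eq_one, mul_inv_eq_iff_eq_mul] at h
    exact h
  have h2 := congrArg (fun u => F u 0) h'
  have f0 : F (FreeGroup.of 0) = P := by simp [F]
  have f1 : F (FreeGroup.of 1) = Q := by simp [F]
  simp only [map_mul, map_pow, f0, f1, Equiv.Perm.mul_apply, hP, hQ] at h2
  have h3 : (1 : ℚ) < 2 ^ n := one_lt_pow₀ (by norm_num) hn
  have h4 : (0 : ℚ) < n := by exact_mod_cast Nat.pos_of_ne_zero hn
  nlinarith

theorem GG_not_virtually (K : Subgroup GG) [K.FiniteIndex] (ψ : K →* Multiplicative ℤ) :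
    ¬ IsFreeGroup ψ.ker := by
  intro hfree
  obtain ⟨n, hn0, hn, hc1⟩ := psi_c_eq_one relG K ψ
  let yK : K := ⟨gy ^ n, hn gy⟩
  let zK : K := ⟨gz ^ n, hn gz⟩
  let e : ψ.ker := ⟨yK * zK * yK⁻¹ * zK⁻¹, by
    simp only [MonoidHom.mem_ker, map_mul, map_inv]
    rw [mul_assoc, mul_assoc, mul_inv_cancel_comm_assoc] <;> simp⟩
  let d : ψ.ker := ⟨⟨gc ^ n, hn gc⟩, hc1⟩
  have hcy : Commute gc gy := relG.cy
  have hcz : Commute gc gz := relG.cz
  have hcomm : Commute e d := by
    apply Subtype.ext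
    apply Subtype.ext
    have h1 : Commute (gc ^ n) (gy ^ n) := hcy.pow_pow n n
    have h2 : Commute (gc ^ n) (gz ^ n) := hcz.pow_pow n n
    exact (((h1.mul_right h2).mul_right h1.inv_right).mul_right h2.inv_right).symm.eq
  obtain ⟨i, j, hij, he⟩ := free_commute hcomm
  have he' : (gy ^ n * gz ^ n * (gy ^ n)⁻¹ * (gz ^ n)⁻¹) ^ i = (gc ^ n) ^ j := by
    simpa [e, d, yK, zK] using congrArg (fun x : ψ.ker => ((x : K) : GG)) he
  set u : F3 := (FreeGroup.of 0 : F3) ^ n * FreeGroup.of 1 ^ n * ((FreeGroup.of 0 : F3) ^ n)⁻¹ *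
      (FreeGroup.of 1 ^ n)⁻¹ with hu
  have hiota : iota (u ^ i) = gc ^ ((n : ℤ) * j) := by
    rw [zpow_mul, zpow_natCast, ← he', hu]
    simp [iota]
  have hproj : proj (u ^ i) = u ^ i := by
    rw [hu]; simp [proj]
  have h1 := ff_left (u ^ i) 1
  rw [hiota, ff_c_zpow, left_mul_hc_zpow, hproj] at h1
  have h2 : u ^ i = 1 := by simpa using h1
  have hi : i = 0 := by
    by_contra hi
    exact not_commute_pow hn0 ((IsMulTorsionFree.zpow_eq_one_iff_left hi).1 h2)
  have hj : j ≠ 0 := by tauto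
  rw [h2, map_one] at hiota
  have h3 := ff_c_zpow ((n : ℤ) * j) 1
  rw [← hiota, one_mul, ff_one, one_mul, hc, ← map_zpow] at h3
  have h4 := congrArg (fun x : HH => x.right.toAdd) h3
  simp only [SemidirectProduct.one_right, SemidirectProduct.right_inr, toAdd_one, toAdd_zpow,
    toAdd_ofAdd, smul_eq_mul, mul_one] at h4
  rcases mul_eq_zero.1 h4.symm with h4 | h4
  · exact hn0 (by exact_mod_cast h4)
  · exact hj h4

end Pool.Agent.Lib.MP_7f5b60_al
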