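import Pool.Agent.Lib.MP_7f5b60_al.Groups

/-!
The bijection `GG → HH` which is Lipschitz in both directions.
-/

set_option autoImplicit false

namespace Pool.Agent.Lib.MP_7f5b60_al

open MulOpposite

theorem exists_f : ∃ f : GG → HH, f 1 = 1 ∧ (∀ g, f (g * gy) = f g * hy * hc ^ ty (f g)) ∧
    (∀ g, f (g * gz) = f g * hz * hc ^ tz (f g)) ∧ (∀ g, f (g * gc) = f g * hc) ∧
    (∀ g, f (g * gs) = f g * hs) := by
  have R := twist_rel relH ty tz ty_c tz_c t_sum
  norm_num at R
  obtain ⟨A, h1, h2, h3, h4⟩ := exists_liftG R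
  refine ⟨fun g => (A g).unop 1, by simp, ?_, ?_, ?_, ?_⟩
  · intro g; simp only [map_mul, h1, unop_mul, unop_op, Equiv.Perm.mul_apply, twist_apply]
  · intro g; simp only [map_mul, h2, unop_mul, unop_op, Equiv.Perm.mul_apply, twist_apply]
  · intro g; simp [h3]
  · intro g; simp [h4]

/-- The map `GG → HH`. -/
noncomputable def ff : GG → HH := exists_f.choose

theorem ff_one : ff 1 = 1 := exists_f.choose_spec.1
theorem ff_y (g : GG) : ff (g * gy) = ff g * hy * hc ^ ty (ff g) := exists_f.choose_spec.2.1 g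
theorem ff_z (g : GG) : ff (g * gz) = ff g * hz * hc ^ tz (ff g) := exists_f.choose_spec.2.2.1 g
theorem ff_c (g : GG) : ff (g * gc) = ff g * hc := exists_f.choose_spec.2.2.2.1 g
theorem ff_s (g : GG) : ff (g * gs) = ff g * hs := exists_f.choose_spec.2.2.2.2 g

theorem map_zpow_of {A B : Type} [Group A] [Group B] {F : A → B} {c : A} {c' : B}
    (h : ∀ g, F (g * c) = F g * c') (k : ℤ) (g : A) : F (g * c ^ k) = F g * c' ^ k := by
  induction k using Int.induction_on generalizing g with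
  | zero => simp
  | succ k ih => rw [zpow_add_one, ← mul_assoc, h, ih, zpow_add_one, mul_assoc]
  | pred k ih =>
    have := h (g * c ^ (-(k : ℤ) - 1))
    rw [mul_assoc, ← zpow_add_one, sub_add_cancel, ih] at this
    rw [zpow_sub_one c', ← mul_assoc, this, mul_inv_cancel_right]

theorem ff_c_zpow (k : ℤ) (g : GG) : ff (g * gc ^ k) = ff g * hc ^ k := map_zpow_of ff_c k g

theorem ff_y_inv (g : GG) : ∃ k : ℤ, ff (g * gy⁻¹) = ff g * hy⁻¹ * hc ^ k := by
  have := ff_y (g * gy⁻¹)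
  rw [inv_mul_cancel_right] at this
  refine ⟨-ty (ff (g * gy⁻¹)), ?_⟩
  rw [this, mul_assoc _ _ hy⁻¹, zpow_comm_inv_of relH.cy]
  group

theorem ff_z_inv (g : GG) : ∃ k : ℤ, ff (g * gz⁻¹) = ff g * hz⁻¹ * hc ^ k := by
  have := ff_z (g * gz⁻¹)
  rw [inv_mul_cancel_right] at this
  refine ⟨-tz (ff (g * gz⁻¹)), ?_⟩
  rw [this, mul_assoc _ _ hz⁻¹, zpow_comm_inv_of relH.cz]
  group

theorem exists_f' : ∃ f : HH → GG, f 1 = 1 ∧
    (∀ h, f (h * hy) = f h * gy * gc ^ (-ty (ff (f h)))) ∧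
    (∀ h, f (h * hz) = f h * gz * gc ^ (-tz (ff (f h)))) ∧ (∀ h, f (h * hc) = f h * gc) ∧
    (∀ h, f (h * hs) = f h * gs) := by
  have hyc : ∀ g : GG, -ty (ff (g * gc)) = -ty (ff g) := fun g => by rw [ff_c, ty_c]
  have hzc : ∀ g : GG, -tz (ff (g * gc)) = -tz (ff g) := fun g => by rw [ff_c, tz_c]
  have hsum : ∀ g : GG, -ty (ff g) + -tz (ff (g * gy)) - -ty (ff (g * gy * gz * gy⁻¹))
      - -tz (ff (g * gy * gz * gy⁻¹ * gz⁻¹)) = 1 := by
    intro g
    obtain ⟨k3, e3⟩ := ff_y_inv (g * gy * gz)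
    obtain ⟨k4, e4⟩ := ff_z_inv (g * gy * gz * gy⁻¹)
    have e1 := ff_y g
    have e2 := ff_z (g * gy)
    set a := ty (ff g)
    set b := tz (ff (g * gy)) with hb
    have e2' : ff (g * gy * gz) = ff g * hy * hz * hc ^ (a + b) := by
      rw [e2, e1, mul_assoc (ff g * hy), zpow_comm_of relH.cz]; group
    have e3' : ff (g * gy * gz * gy⁻¹) = ff g * hy * hz * hy⁻¹ * hc ^ (a + b + k3) := by
      rw [e3, e2', mul_assoc (ff g * hy * hz), zpow_comm_inv_of relH.cy]; group
    have e4' : ff (g * gy * gz * gy⁻¹ * gz⁻¹)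
        = ff g * hy * hz * hy⁻¹ * hz⁻¹ * hc ^ (a + b + k3 + k4) := by
      rw [e4, e3', mul_assoc (ff g * hy * hz * hy⁻¹), zpow_comm_inv_of relH.cz]; group
    have hb' : b = tz (ff g * hy) := by rw [hb, e1, inv_zpow_of_inv tz_c]
    have := t_sum (ff g)
    rw [e3', e4', inv_zpow_of_inv ty_c, inv_zpow_of_inv tz_c, hb']
    omega
  have R := twist_rel relG (fun g => -ty (ff g)) (fun g => -tz (ff g)) hyc hzc hsum
  rw [show (2 : ℤ) - 1 = 1 by norm_num] at R
  obtain ⟨A, h1, h2, h3, h4⟩ := exists_liftH R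
  refine ⟨fun g => (A g).unop 1, by simp, ?_, ?_, ?_, ?_⟩
  · intro g; simp only [map_mul, h1, unop_mul, unop_op, Equiv.Perm.mul_apply, twist_apply]
  · intro g; simp only [map_mul, h2, unop_mul, unop_op, Equiv.Perm.mul_apply, twist_apply]
  · intro g; simp [h3]
  · intro g; simp [h4]

/-- The inverse map `HH → GG`. -/
noncomputable def ff' : HH → GG := exists_f'.choose

theorem ff'_one : ff' 1 = 1 := exists_f'.choose_spec.1
theorem ff'_y (h : HH) : ff' (h * hy) = ff' h * gy * gc ^ (-ty (ff (ff' h))) :=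
  exists_f'.choose_spec.2.1 h
theorem ff'_z (h : HH) : ff' (h * hz) = ff' h * gz * gc ^ (-tz (ff (ff' h))) :=
  exists_f'.choose_spec.2.2.1 h
theorem ff'_c (h : HH) : ff' (h * hc) = ff' h * gc := exists_f'.choose_spec.2.2.2.1 h
theorem ff'_s (h : HH) : ff' (h * hs) = ff' h * gs := exists_f'.choose_spec.2.2.2.2 h

theorem mem_SH {x : HH} : x ∈ SH ↔ x = hy ∨ x = hz ∨ x = hc ∨ x = hs := by simp [SH]
theorem mem_SG {x : GG} : x ∈ SG ↔ x = gy ∨ x = gz ∨ x = gc ∨ x = gs := by simp [SG]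

theorem ff_ff' (h : HH) : ff (ff' h) = h := by
  refine eq_id_of_equivariant closure_SH (fun h => ff (ff' h)) (by simp [ff'_one, ff_one]) ?_ h
  intro x hx h
  rcases mem_SH.1 hx with rfl | rfl | rfl | rfl
  · simp only [ff'_y, ff_c_zpow, ff_y]; group
  · simp only [ff'_z, ff_c_zpow, ff_z]; group
  · simp only [ff'_c, ff_c]
  · simp only [ff'_s, ff_s]

theorem ff'_ff (g : GG) : ff' (ff g) = g := by
  refine eq_id_of_equivariant closure_SG (fun g => ff' (ff g)) (by simp [ff'_one, ff_one]) ?_ g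
  intro x hx g
  rcases mem_SG.1 hx with rfl | rfl | rfl | rfl
  · simp only [ff_y, map_zpow_of ff'_c, ff'_y, ff_ff']; group
  · simp only [ff_z, map_zpow_of ff'_c, ff'_z, ff_ff']; group
  · simp only [ff'_c, ff_c]
  · simp only [ff'_s, ff_s]

theorem lip_ff (a b : GG) (n : ℕ) (hab : Word SG n (a⁻¹ * b)) :
    Word SH (2 * n) ((ff a)⁻¹ * ff b) := by
  refine lipschitz SG SH ff 2 ?_ a b n hab
  intro x hx g
  have hcm : hc ∈ SH := by simp [mem_SH]
  rcases mem_SG.1 hx with rfl | rfl | rfl | rfl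
  · have := (Word.of_mem (show hy ∈ SH by simp [mem_SH])).mul
      (Word.zpow_small hcm (k := ty (ff g)) (by have := ty_bd (ff g); omega) (ty_bd _).2)
    rw [ff_y]; convert this using 1; group
  · have := (Word.of_mem (show hz ∈ SH by simp [mem_SH])).mul
      (Word.zpow_small hcm (k := tz (ff g)) (by have := tz_bd (ff g); omega) (tz_bd _).2)
    rw [ff_z]; convert this using 1; group
  · rw [ff_c, inv_mul_cancel_left]; exact (Word.of_mem hcm).mono (by omega)
  · rw [ff_s, inv_mul_cancel_left]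
    exact (Word.of_mem (show hs ∈ SH by simp [mem_SH])).mono (by omega)

theorem lip_ff' (a b : HH) (n : ℕ) (hab : Word SH n (a⁻¹ * b)) :
    Word SG (2 * n) ((ff' a)⁻¹ * ff' b) := by
  refine lipschitz SH SG ff' 2 ?_ a b n hab
  intro x hx g
  have hcm : gc ∈ SG := by simp [mem_SG]
  rcases mem_SH.1 hx with rfl | rfl | rfl | rfl
  · have := (Word.of_mem (show gy ∈ SG by simp [mem_SG])).mul
      (Word.zpow_small hcm (k := -ty (ff (ff' g))) (by have := ty_bd (ff (ff' g)); omega)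
        (by have := ty_bd (ff (ff' g)); omega))
    rw [ff'_y]; convert this using 1; group
  · have := (Word.of_mem (show gz ∈ SG by simp [mem_SG])).mul
      (Word.zpow_small hcm (k := -tz (ff (ff' g))) (by have := tz_bd (ff (ff' g)); omega)
        (by have := tz_bd (ff (ff' g)); omega))
    rw [ff'_z]; convert this using 1; group
  · rw [ff'_c, inv_mul_cancel_left]; exact (Word.of_mem hcm).mono (by omega)
  · rw [ff'_s, inv_mul_cancel_left]
    exact (Word.of_mem (show gs ∈ SG by simp [mem_SG])).mono (by omega)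

end Pool.Agent.Lib.MP_7f5b60_al
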