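import Mathlib

/-!
Twisted right actions for the groups
`⟨y, z, c, s | c y = y c, c z = z c, c s = s (y z y⁻¹ z⁻¹) c ^ q⟩`.
-/

set_option autoImplicit false

namespace Pool.Agent.Lib.MP_7f5b60_al

open MulOpposite

/-- The defining relations of the group with parameter `q`. -/
structure Rel {Γ : Type} [Group Γ] (q : ℤ) (y z c s : Γ) : Prop where
  cy : c * y = y * c
  cz : c * z = z * c
  cs : c * s = s * (y * z * y⁻¹ * z⁻¹ * c ^ q)

section twist

variable {Γ : Type} [Group Γ]

theorem inv_zpow_of_inv {c : Γ} {τ : Γ → ℤ} (hτ : ∀ h, τ (h * c) = τ h) (k : ℤ) (h : Γ) :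
    τ (h * c ^ k) = τ h := by
  induction k using Int.induction_on generalizing h with
  | zero => simp
  | succ k ih => rw [zpow_add_one, ← mul_assoc, hτ, ih]
  | pred k ih =>
    have := hτ (h * c ^ (-(k : ℤ) - 1))
    rw [← this, mul_assoc, ← zpow_add_one]
    simpa using ih h

theorem zpow_comm_of {c x : Γ} (hx : c * x = x * c) (k : ℤ) : c ^ k * x = x * c ^ k :=
  (Commute.zpow_left (show Commute c x from hx) k).eq

theorem zpow_comm_inv_of {c x : Γ} (hx : c * x = x * c) (k : ℤ) : c ^ k * x⁻¹ = x⁻¹ * c ^ k :=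
  (Commute.zpow_left (Commute.inv_right (show Commute c x from hx)) k).eq

/-- Twisted right multiplication `h ↦ h x c ^ (τ h)`. -/
def twist (x c : Γ) (τ : Γ → ℤ) (hx : c * x = x * c) (hτ : ∀ h, τ (h * c) = τ h) :
    Equiv.Perm Γ where
  toFun h := h * x * c ^ τ h
  invFun h := h * x⁻¹ * c ^ (-τ (h * x⁻¹))
  left_inv h := by
    have e : h * x * c ^ τ h * x⁻¹ = h * c ^ τ h := by
      rw [mul_assoc (h * x), zpow_comm_inv_of hx]; group
    simp only [e, inv_zpow_of_inv hτ]
    group
  right_inv h := by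
    simp only [inv_zpow_of_inv hτ]
    rw [mul_assoc (h * x⁻¹), zpow_comm_of hx]
    group

theorem twist_apply (x c : Γ) (τ : Γ → ℤ) (hx : c * x = x * c) (hτ : ∀ h, τ (h * c) = τ h)
    (h : Γ) : twist x c τ hx hτ h = h * x * c ^ τ h := rfl

theorem twist_inv_apply (x c : Γ) (τ : Γ → ℤ) (hx : c * x = x * c) (hτ : ∀ h, τ (h * c) = τ h)
    (h : Γ) : (twist x c τ hx hτ)⁻¹ h = h * x⁻¹ * c ^ (-τ (h * x⁻¹)) := rfl

theorem mulRight_zpow_apply (c : Γ) (k : ℤ) (h : Γ) :
    ((Equiv.mulRight c : Equiv.Perm Γ) ^ k) h = h * c ^ k := by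
  rw [Equiv.zpow_mulRight]; rfl

theorem twist_rel {q δ : ℤ} {y z c s : Γ} (R : Rel q y z c s) (τy τz : Γ → ℤ)
    (hy : ∀ h, τy (h * c) = τy h) (hz : ∀ h, τz (h * c) = τz h)
    (hsum : ∀ h, τy h + τz (h * y) - τy (h * y * z * y⁻¹) - τz (h * y * z * y⁻¹ * z⁻¹) = δ) :
    Rel (Γ := (Equiv.Perm Γ)ᵐᵒᵖ) (q - δ) (op (twist y c τy R.cy hy)) (op (twist z c τz R.cz hz))
      (op (Equiv.mulRight c)) (op (Equiv.mulRight s)) := by
  refine ⟨?_, ?_, ?_⟩
  · apply unop_injective
    ext h
    simp only [unop_mul, unop_op, Equiv.Perm.mul_apply, twist_apply, Equiv.coe_mulRight, hy]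
    rw [mul_assoc h c, R.cy]
    group
  · apply unop_injective
    ext h
    simp only [unop_mul, unop_op, Equiv.Perm.mul_apply, twist_apply, Equiv.coe_mulRight, hz]
    rw [mul_assoc h c, R.cz]
    group
  · apply unop_injective
    ext h
    simp only [unop_mul, unop_op, unop_inv, unop_zpow, Equiv.Perm.mul_apply, twist_apply,
      twist_inv_apply, Equiv.coe_mulRight, mulRight_zpow_apply]
    set g := h * s with hg
    have e1 : ∀ a b : ℤ, g * y * c ^ a * z * c ^ b = g * y * z * c ^ (a + b) := by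
      intro a b
      rw [mul_assoc (g * y), zpow_comm_of R.cz]; group
    have e2 : ∀ a : ℤ, g * y * z * c ^ a * y⁻¹ = g * y * z * y⁻¹ * c ^ a := by
      intro a
      rw [mul_assoc (g * y * z), zpow_comm_inv_of R.cy]; group
    have e3 : ∀ a b : ℤ, g * y * z * y⁻¹ * c ^ a * c ^ b * z⁻¹
        = g * y * z * y⁻¹ * z⁻¹ * c ^ (a + b) := by
      intro a b
      rw [mul_assoc (g * y * z * y⁻¹), ← zpow_add, mul_assoc (g * y * z * y⁻¹),
        zpow_comm_inv_of R.cz]; group
    simp only [e1, e2, e3, inv_zpow_of_inv hy, inv_zpow_of_inv hz]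
    have hs := hsum g
    rw [mul_assoc h c s, R.cs, mul_assoc (g * y * z * y⁻¹ * z⁻¹), ← zpow_add,
      mul_assoc (g * y * z * y⁻¹ * z⁻¹), ← zpow_add]
    have : τy g + τz (g * y) + -τy (g * y * z * y⁻¹) + -τz (g * y * z * y⁻¹ * z⁻¹) + (q - δ)
        = q := by omega
    rw [this, hg]
    group

theorem eq_id_of_equivariant {S : Set Γ} (hS : Subgroup.closure S = ⊤) (F : Γ → Γ)
    (h1 : F 1 = 1) (hF : ∀ x ∈ S, ∀ h, F (h * x) = F h * x) (h : Γ) : F h = h := by
  have key : ∀ x ∈ Subgroup.closure S, ∀ h, F (h * x) = F h * x := by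
    intro x hx
    induction hx using Subgroup.closure_induction with
    | mem x hx => exact hF x hx
    | one => simp
    | mul a b _ _ iha ihb => intro h; rw [← mul_assoc, ihb, iha, mul_assoc]
    | inv a _ iha =>
      intro h
      have := iha (h * a⁻¹)
      rw [inv_mul_cancel_right] at this
      rw [this, mul_inv_cancel_right]
  have := key h (hS ▸ Subgroup.mem_top h) 1
  rwa [one_mul, h1, one_mul] at this

end twist

section words

variable {G H : Type} [Group G] [Group H]

/-- `h` is a product of at most `n` letters from `T` and their inverses. -/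
def Word (T : Finset H) (n : ℕ) (h : H) : Prop :=
  ∃ l : List H, l.length ≤ n ∧ (∀ x ∈ l, x ∈ T ∨ x⁻¹ ∈ T) ∧ l.prod = h

theorem Word.mul {T : Finset H} {m n : ℕ} {a b : H} (ha : Word T m a) (hb : Word T n b) :
    Word T (m + n) (a * b) := by
  obtain ⟨l1, h1, h2, rfl⟩ := ha
  obtain ⟨l2, h3, h4, rfl⟩ := hb
  refine ⟨l1 ++ l2, by simp; omega, ?_, by simp⟩
  intro x hx
  rcases List.mem_append.1 hx with hx | hx
  · exact h2 x hx
  · exact h4 x hx

theorem Word.inv {T : Finset H} {m : ℕ} {a : H} (ha : Word T m a) : Word T m a⁻¹ := by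
  obtain ⟨l1, h1, h2, rfl⟩ := ha
  refine ⟨(l1.map fun x => x⁻¹).reverse, by simpa using h1, ?_, (List.prod_inv_reverse l1).symm⟩
  intro x hx
  simp only [List.mem_reverse, List.mem_map] at hx
  obtain ⟨u, hu, rfl⟩ := hx
  simpa [or_comm] using h2 u hu

theorem Word.mono {T : Finset H} {m n : ℕ} {a : H} (ha : Word T m a) (h : m ≤ n) :
    Word T n a := by
  obtain ⟨l1, h1, h2, h3⟩ := ha
  exact ⟨l1, h1.trans h, h2, h3⟩

theorem Word.one (T : Finset H) : Word T 0 1 := ⟨[], by simp, by simp, by simp⟩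

theorem Word.of_mem {T : Finset H} {a : H} (ha : a ∈ T) : Word T 1 a :=
  ⟨[a], by simp, by simp [ha], by simp⟩

theorem Word.zpow_small {T : Finset H} {c : H} (hc : c ∈ T) {k : ℤ} (h1 : -1 ≤ k) (h2 : k ≤ 1) :
    Word T 1 (c ^ k) := by
  interval_cases k
  · simpa using (Word.of_mem hc).inv
  · simpa using (Word.one T).mono (by omega)
  · simpa using Word.of_mem hc

theorem lipschitz (S : Finset G) (T : Finset H) (f : G → H) (L : ℕ)
    (hf : ∀ x ∈ S, ∀ g, Word T L ((f g)⁻¹ * f (g * x))) (a b : G) (n : ℕ)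
    (hab : Word S n (a⁻¹ * b)) : Word T (L * n) ((f a)⁻¹ * f b) := by
  obtain ⟨l, hl, hS, hp⟩ := hab
  have hb : b = a * l.prod := by rw [hp]; group
  subst hb
  refine Word.mono (m := L * l.length) ?_ (Nat.mul_le_mul_left _ hl)
  clear hl hp
  induction l generalizing a with
  | nil => simpa using Word.one T
  | cons x l ih =>
    have h1 : Word T L ((f a)⁻¹ * f (a * x)) := by
      rcases hS x (by simp) with hx | hx
      · exact hf x hx a
      · have := (hf _ hx (a * x)).inv
        simpa using this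
    have h2 := ih (a * x) (fun u hu => hS u (by simp [hu]))
    have := h1.mul h2
    simp only [List.length_cons, List.prod_cons]
    rw [show L * (l.length + 1) = L + L * l.length by ring, ← mul_assoc a x]
    convert this using 1
    group

end words

end Pool.Agent.Lib.MP_7f5b60_al
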